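import Pool.Agent.Q57.LT.Tree
import Pool.Agent.Q57.LT.Final

set_option autoImplicit false

/-!
A rooted tree `T` with a bijective self-map `φ` such that `λ C_φ` is hypercyclic on the little
Lipschitz space of `T` for all `1/2 < |λ| < 1`.
-/

namespace Pool.Agent.Results.MP_2744a5_an.BijectiveSymbol

/-- A rooted tree: a connected graph without cycles, locally finite, with a distinguished vertex;
only the root may have degree one (and the tree has more than one vertex). -/
structure RootedTree (V : Type) where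
  graph : SimpleGraph V
  root : V
  isTree : graph.IsTree
  locallyFinite : ∀ v, (graph.neighborSet v).Finite
  degree : ∀ v, v ≠ root → ∃ a b, a ≠ b ∧ graph.Adj v a ∧ graph.Adj v b
  nontrivial : ∃ a, graph.Adj root a

/-- `w` is the parent of `v`: the neighbour of `v` closer to the root. -/
def RootedTree.IsParent {V : Type} (T : RootedTree V) (v w : V) : Prop :=
  T.graph.Adj v w ∧ T.graph.dist T.root v = T.graph.dist T.root w + 1

/-- The little Lipschitz space: for every `ε > 0` only finitely many `v` different from the root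
have `|f(v) - f(v⁻)| ≥ ε`. -/
def RootedTree.L0 {V : Type} (T : RootedTree V) : Set (V → ℂ) :=
  {f | ∀ ε > 0, {v | ∃ w, T.IsParent v w ∧ ε ≤ ‖f v - f w‖}.Finite}

/-- The norm `max {|f(root)|, sup |f(v) - f(v⁻)|}`. -/
noncomputable def RootedTree.norm {V : Type} (T : RootedTree V) (f : V → ℂ) : ℝ :=
  sSup (insert ‖f T.root‖ {x | ∃ v w, T.IsParent v w ∧ x = ‖f v - f w‖})

open Q57.LT

theorem hne : ∀ v : ℕ × ℕ, v ≠ (0, 0) → par v ≠ v := by
  rintro ⟨k, i⟩ hv
  match k, i with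
  | 0, 0 => exact absurd rfl hv
  | k, i + 1 => simp [par]
  | k + 1, 0 => simp [par]

theorem hsz : ∀ v : ℕ × ℕ, v ≠ (0, 0) →
    (fun v : ℕ × ℕ => v.1 + v.2) (par v) + 1 = (fun v : ℕ × ℕ => v.1 + v.2) v := by
  rintro ⟨k, i⟩ hv
  match k, i with
  | 0, 0 => exact absurd rfl hv
  | k, i + 1 => simp [par]; omega
  | k + 1, 0 => simp [par]

/-- The comb: vertices `(k, i)`, root `(0, 0)`, the parent of `(k, i + 1)` is `(k, i)`, the parent
of `(k + 1, 0)` is `(k, 0)`. -/
def comb : RootedTree (ℕ × ℕ) where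
  graph := pgraph (0, 0) par hne
  root := (0, 0)
  isTree := pg_isTree (0, 0) par (fun v => v.1 + v.2) hne hsz rfl rfl
  locallyFinite := by
    rintro ⟨k, i⟩
    refine ((Set.finite_Iic (k + 1)).prod (Set.finite_Iic (i + 1))).subset ?_
    rintro ⟨l, j⟩ h
    rcases h with h | h
    · match k, i with
      | 0, 0 => exact absurd rfl h.1
      | k, i + 1 =>
        have h2 : (k, i) = (l, j) := h.2
        simp only [Prod.mk.injEq] at h2
        simp only [Set.mem_prod, Set.mem_Iic]; omega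
      | k + 1, 0 =>
        have h2 : (k, 0) = (l, j) := h.2
        simp only [Prod.mk.injEq] at h2
        simp only [Set.mem_prod, Set.mem_Iic]; omega
    · match l, j with
      | 0, 0 => exact absurd rfl h.1
      | l, j + 1 =>
        have h2 : (l, j) = (k, i) := h.2
        simp only [Prod.mk.injEq] at h2
        simp only [Set.mem_prod, Set.mem_Iic]; omega
      | l + 1, 0 =>
        have h2 : (l, 0) = (k, i) := h.2
        simp only [Prod.mk.injEq] at h2
        simp only [Set.mem_prod, Set.mem_Iic]; omega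
  degree := by
    rintro ⟨k, i⟩ hv
    refine ⟨par (k, i), (k, i + 1), ?_, Or.inl ⟨hv, rfl⟩, Or.inr ⟨by simp, rfl⟩⟩
    match k, i with
    | 0, 0 => exact absurd rfl hv
    | k, i + 1 => simp [par]; omega
    | k + 1, 0 => simp [par]
  nontrivial := ⟨(0, 1), Or.inr ⟨by simp, rfl⟩⟩

theorem isParent_iff (v w : ℕ × ℕ) : comb.IsParent v w ↔ v ≠ (0, 0) ∧ par v = w :=
  pg_parent (0, 0) par (fun v => v.1 + v.2) hne hsz rfl v w

theorem Dd_ne (f : ℕ × ℕ → ℂ) (v : ℕ × ℕ) (hv : v ≠ (0, 0)) : Dd f v = f v - f (par v) := by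
  unfold Dd; rw [if_neg hv]

theorem mem_L0_iff (f : ℕ × ℕ → ℂ) : f ∈ comb.L0 ↔ Zt (Dd f) := by
  have hset : ∀ ε : ℝ, {v | ∃ w, comb.IsParent v w ∧ ε ≤ ‖f v - f w‖}
      = {v | v ≠ (0, 0) ∧ ε ≤ ‖Dd f v‖} := by
    intro ε
    ext v
    constructor
    · rintro ⟨w, h1, h2⟩
      rw [isParent_iff] at h1
      refine ⟨h1.1, ?_⟩
      rw [Dd_ne f v h1.1, h1.2]; exact h2
    · rintro ⟨h1, h2⟩
      refine ⟨par v, (isParent_iff v _).mpr ⟨h1, rfl⟩, ?_⟩
      rw [← Dd_ne f v h1]; exact h2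
  constructor
  · intro h ε hε
    have h1 := h ε hε
    rw [hset] at h1
    obtain ⟨M, hM⟩ := (h1.image (fun v : ℕ × ℕ => v.1 + v.2)).bddAbove
    refine ⟨M + 1, fun v hv => ?_⟩
    by_contra hcon
    have hv0 : v ≠ (0, 0) := by rintro rfl; simp at hv
    have := hM ⟨v, ⟨hv0, not_lt.mp hcon⟩, rfl⟩
    simp only at this
    omega
  · intro h ε hε
    rw [hset]
    obtain ⟨M, hM⟩ := h ε hε
    refine ((Set.finite_Iic M).prod (Set.finite_Iic M)).subset ?_
    rintro v ⟨_, hv⟩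
    by_contra hcon
    have := hM v (by
      simp only [Set.mem_prod, Set.mem_Iic, not_and_or] at hcon
      omega)
    linarith

theorem norm_le (f : ℕ × ℕ → ℂ) (c : ℝ) (h : ∀ v, ‖Dd f v‖ ≤ c) : comb.norm f ≤ c := by
  apply csSup_le (Set.insert_nonempty _ _)
  rintro x (rfl | ⟨v, w, h1, rfl⟩)
  · have := h (0, 0)
    rw [Dd_root] at this
    exact this
  · rw [isParent_iff] at h1
    have := h v
    rw [Dd_ne f v h1.1, h1.2] at this
    exact this

theorem le_norm (f : ℕ × ℕ → ℂ) (c : ℝ) (h : ∀ v, ‖Dd f v‖ ≤ c) (v : ℕ × ℕ) :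
    ‖Dd f v‖ ≤ comb.norm f := by
  apply le_csSup
  · refine ⟨c, ?_⟩
    rintro x (rfl | ⟨v, w, h1, rfl⟩)
    · have := h (0, 0)
      rw [Dd_root] at this
      exact this
    · rw [isParent_iff] at h1
      have := h v
      rw [Dd_ne f v h1.1, h1.2] at this
      exact this
  · by_cases hv : v = (0, 0)
    · left; rw [hv, Dd_root]; rfl
    · right; exact ⟨v, par v, (isParent_iff v _).mpr ⟨hv, rfl⟩, by rw [Dd_ne f v hv]⟩

/-- There are a rooted tree `T` and a bijection `φ` of its vertex set (so that `T \ φ(T)` is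
empty) such that `C_φ` maps the little Lipschitz space boundedly into itself and `λ C_φ` is
hypercyclic for every `λ` with `1/2 < |λ| < 1`. -/
theorem result : ∃ (V : Type) (T : RootedTree V) (φ : V → V), Function.Bijective φ ∧
    (Set.univ \ Set.range φ).Finite ∧
    (∀ f ∈ T.L0, f ∘ φ ∈ T.L0) ∧ (∃ C : ℝ, ∀ f ∈ T.L0, T.norm (f ∘ φ) ≤ C * T.norm f) ∧
    ∀ lam : ℂ, 1 / 2 < ‖lam‖ → ‖lam‖ < 1 →
      ∃ f ∈ T.L0, ∀ g ∈ T.L0, ∀ ε > 0, ∃ n : ℕ,
        T.norm (fun v => lam ^ n * f (φ^[n] v) - g v) < ε := by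
  refine ⟨ℕ × ℕ, comb, phi, phi_bijective, ?_, ?_, ?_, ?_⟩
  · rw [phi_bijective.2.range_eq]; simp
  · intro f hf
    rw [mem_L0_iff] at hf ⊢
    exact Zt_comp f hf
  · refine ⟨2, fun f hf => ?_⟩
    rw [mem_L0_iff] at hf
    obtain ⟨c, _, hc⟩ := Zt_bound _ hf
    exact norm_le _ _ (comp_bound f _ (le_norm f c hc))
  · intro lam h1 h2
    obtain ⟨f, hf, hfg⟩ := hyper lam h1 h2
    refine ⟨f, (mem_L0_iff f).mpr hf, fun g hg ε hε => ?_⟩
    obtain ⟨n, hn⟩ := hfg g ((mem_L0_iff g).mp hg) (ε / 2) (by linarith)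
    exact ⟨n, (norm_le _ _ hn).trans_lt (by linarith)⟩

end Pool.Agent.Results.MP_2744a5_an.BijectiveSymbol
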